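import Pool.Agent.H62.BmMain

set_option autoImplicit false

namespace Pool.Agent.Results.MP_4878e4_gt.NoSingularPeriodicOrbit

open Pool.Agent.H62.Bm

/-- In every odd dimension `2 n + 1 ≥ 3` and for every order `m ≥ 1` there is a compact connected
`b^m`-contact manifold `(M, Z, α)` without singular periodic orbits (the `b^m`-Reeb field, which
exists and is unique, is spelled out as well).  (The example is an explicit
polynomial form on `S^1 × S^(2n)`, with `Z` two copies of `S^(2n)`.) -/
theorem result (n m : ℕ) (hn : 1 ≤ n) (hm : 1 ≤ m) :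
    ∃ (E G : Type) (_ : NormedAddCommGroup E) (_ : NormedSpace ℝ E)
      (_ : NormedAddCommGroup G) (_ : NormedSpace ℝ G) (D : BmForm E G),
      D.IsCompactBmContact n m ∧ (∀ p ∈ D.M, ∃! v : E, D.IsReebVector m p v) ∧
        ∀ γ : ℝ → E, ¬ D.IsSingularPeriodicOrbit m γ := by
  obtain ⟨k, rfl⟩ : ∃ k, n = k + 1 := ⟨n - 1, by omega⟩
  exact ⟨EE k, ℝ × ℝ, inferInstance, inferInstance, inferInstance, inferInstance,
    DD k m ((1 / 2) ^ (m + 1)) (((1 / 2) ^ (m + 1)) ^ 2), isContact m _ _ rfl rfl,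
    fun p hp => reeb_existsUnique m _ _ rfl rfl hp, fun γ => no_singular_orbit m hm _ _ rfl rfl γ⟩

end Pool.Agent.Results.MP_4878e4_gt.NoSingularPeriodicOrbit
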